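import Mathlib
import Pool.Agent.Helper76.UF.Sq.Q3

/-!
# Etale spread

A square system `F (c, k) = 0` with parameters `c` and unknowns `k`, with a rational solution at
which the Jacobian determinant with respect to `k` and an open condition `G` do not vanish, has
a solution with the same properties, over a finite extension, for all `c` outside a hypersurface.
-/

namespace Pool.Agent.Helper76.XN

open MvPolynomial TensorProduct

variable {E I : Type}

/-- polynomials in `c`, `k` as polynomials in `k` and one more variable with coefficients in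
`Q[c]` -/
noncomputable def tr : MvPolynomial (E ⊕ I) ℚ →ₐ[ℚ] MvPolynomial (I ⊕ Unit) (MvPolynomial E ℚ) :=
  aeval (Sum.elim (fun e => C (X e)) (fun i => X (Sum.inl i)))

theorem tr_pderiv_inl (j : I) (F : MvPolynomial (E ⊕ I) ℚ) :
    pderiv (Sum.inl j) (tr F) = tr (pderiv (Sum.inr j) F) := by
  classical
  induction F using MvPolynomial.induction_on with
  | C a =>
    have : tr (C a : MvPolynomial (E ⊕ I) ℚ) = C (C a) := by
      rw [tr, aeval_C]
      rfl
    rw [this]
    simp
  | add p q hp hq => simp [hp, hq]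
  | mul_X p s hp =>
    rw [map_mul, Derivation.leibniz, Derivation.leibniz, map_add, hp]
    simp only [smul_eq_mul, map_mul]
    congr 2
    rcases s with e | i
    · simp [tr, pderiv_X]
    · simp [tr, pderiv_X, Pi.single_apply]

theorem tr_pderiv_inr (u : Unit) (F : MvPolynomial (E ⊕ I) ℚ) :
    pderiv (Sum.inr u) (tr F) = 0 := by
  classical
  induction F using MvPolynomial.induction_on with
  | C a =>
    have : tr (C a : MvPolynomial (E ⊕ I) ℚ) = C (C a) := by
      rw [tr, aeval_C]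
      rfl
    rw [this]
    simp
  | add p q hp hq => simp [hp, hq]
  | mul_X p s hp =>
    rw [map_mul, Derivation.leibniz, hp]
    rcases s with e | i
    · simp [tr]
    · simp [tr, pderiv_X]

theorem aeval_tr {R : Type*} [CommRing R] [Algebra ℚ R] [Algebra (MvPolynomial E ℚ) R]
    [IsScalarTower ℚ (MvPolynomial E ℚ) R] (k : I ⊕ Unit → R)
    (F : MvPolynomial (E ⊕ I) ℚ) :
    aeval k (tr F) = aeval (Sum.elim (fun e => algebraMap (MvPolynomial E ℚ) R (X e))
      (fun i => k (Sum.inl i))) F := by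
  have : ((aeval k : MvPolynomial (I ⊕ Unit) (MvPolynomial E ℚ) →ₐ[MvPolynomial E ℚ] R).restrictScalars
    ℚ).comp tr = aeval (Sum.elim (fun e => algebraMap (MvPolynomial E ℚ) R (X e))
      (fun i => k (Sum.inl i))) := by
    ext s
    rcases s with e | i
    · simp [tr]
    · simp [tr]
  exact DFunLike.congr_fun this F


/-- the relations -/
noncomputable def rel (F : I → MvPolynomial (E ⊕ I) ℚ) (H : MvPolynomial (E ⊕ I) ℚ) :
    I ⊕ Unit → MvPolynomial (I ⊕ Unit) (MvPolynomial E ℚ) :=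
  Sum.elim (fun i => tr (F i)) (fun _ => X (Sum.inr ()) * tr H - 1)

/-- the algebra of the solutions with `H` invertible -/
abbrev Sol (F : I → MvPolynomial (E ⊕ I) ℚ) (H : MvPolynomial (E ⊕ I) ℚ) :=
  MvPolynomial (I ⊕ Unit) (MvPolynomial E ℚ) ⧸ (Ideal.span <| Set.range (rel F H))

/-- the Jacobian determinant -/
noncomputable def jac [Fintype I] [DecidableEq I] (F : I → MvPolynomial (E ⊕ I) ℚ) :
    MvPolynomial (E ⊕ I) ℚ :=
  (Matrix.of fun i j => pderiv (Sum.inr j) (F i)).det

theorem aeval_mk {σ R : Type*} [CommRing R] (J : Ideal (MvPolynomial σ R))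
    (p : MvPolynomial σ R) : aeval (fun i => Ideal.Quotient.mk J (X i)) p =
      Ideal.Quotient.mk J p := by
  have h := aeval_unique (Ideal.Quotient.mkₐ R J)
  exact (DFunLike.congr_fun h p).symm

theorem smooth_of {R ι : Type} [CommRing R] [Fintype ι] [DecidableEq ι]
    (v : ι → MvPolynomial ι R)
    (h : IsUnit (Ideal.Quotient.mk (Ideal.span <| Set.range v)
      (Matrix.of fun i j => pderiv i (v j)).det)) :
    Algebra.Smooth R (MvPolynomial ι R ⧸ (Ideal.span <| Set.range v)) := by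
  let P : Algebra.PreSubmersivePresentation R (MvPolynomial ι R ⧸ (Ideal.span <| Set.range v)) ι
    ι := Algebra.PreSubmersivePresentation.naive id Function.injective_id
  have hmat : P.jacobiMatrix = Matrix.of fun i j => pderiv i (v j) := by
    ext1 i j
    rw [Algebra.PreSubmersivePresentation.jacobiMatrix_naive]
    rfl
  have hu2 : IsUnit P.jacobian := by
    rw [Algebra.PreSubmersivePresentation.jacobian_eq_jacobiMatrix_det, P.algebraMap_apply, hmat]
    have h3 := aeval_mk (Ideal.span <| Set.range v) (Matrix.of fun i j => pderiv i (v j)).det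
    rw [← h3] at h
    exact h
  let P' : Algebra.SubmersivePresentation R (MvPolynomial ι R ⧸ (Ideal.span <| Set.range v)) ι
    ι := ⟨P, hu2⟩
  have := P'.isStandardSmooth
  infer_instance

theorem unit_of_mk {R : Type*} [CommRing R] (J : Ideal R) (a b : R)
    (h : Ideal.Quotient.mk J a * Ideal.Quotient.mk J b = 1) : IsUnit (Ideal.Quotient.mk J a) :=
  isUnit_iff_exists_inv.2 ⟨_, h⟩

theorem unit_left_mk {R : Type*} [CommRing R] (J : Ideal R) (a b : R)
    (h : IsUnit (Ideal.Quotient.mk J a * Ideal.Quotient.mk J b)) :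
    IsUnit (Ideal.Quotient.mk J a) := (IsUnit.mul_iff.1 h).1

theorem isUnit_mk (F : I → MvPolynomial (E ⊕ I) ℚ) (H : MvPolynomial (E ⊕ I) ℚ) :
    IsUnit (Ideal.Quotient.mk (Ideal.span <| Set.range (rel F H)) (tr H)) := by
  have h : Ideal.Quotient.mk (Ideal.span <| Set.range (rel F H)) (tr H) *
      Ideal.Quotient.mk _ (X (Sum.inr ())) = 1 := by
    rw [← map_mul, ← map_one (Ideal.Quotient.mk _), Ideal.Quotient.eq]
    refine Ideal.subset_span ⟨Sum.inr (), ?_⟩
    simp only [rel, Sum.elim_inr]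
    ring
  exact unit_of_mk _ _ _ h

theorem smooth [Fintype I] [DecidableEq I] (F : I → MvPolynomial (E ⊕ I) ℚ)
    (H G : MvPolynomial (E ⊕ I) ℚ) (hH : H = jac F * G) :
    Algebra.Smooth (MvPolynomial E ℚ) (Sol F H) := by
  refine smooth_of _ ?_
  have hmat : (Matrix.of fun i j => pderiv i (rel F H j)) = Matrix.fromBlocks
      ((Matrix.of fun i j => tr (pderiv (Sum.inr j) (F i))).transpose)
      (Matrix.of fun j _ => X (Sum.inr ()) * tr (pderiv (Sum.inr j) H)) 0
      (Matrix.of fun _ _ => tr H) := by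
    ext1 i j
    rcases i with i | i <;> rcases j with j | j
    · simp [rel, tr_pderiv_inl]
    · simp [rel, tr_pderiv_inl, pderiv_X, Derivation.leibniz]
    · simp [rel, tr_pderiv_inr]
    · simp [rel, tr_pderiv_inr, pderiv_X, Derivation.leibniz]
  have hdet : (Matrix.of fun i j => pderiv i (rel F H j)).det = tr (jac F) * tr H := by
    rw [hmat, Matrix.det_fromBlocks_zero₂₁, Matrix.det_transpose]
    congr 1
    · rw [jac, AlgHom.map_det]
      rfl
    · simp
  have hu := isUnit_mk F H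
  have h1 : IsUnit (Ideal.Quotient.mk (Ideal.span <| Set.range (rel F H)) (tr (jac F))) := by
    have h2 : Ideal.Quotient.mk (Ideal.span <| Set.range (rel F H)) (tr H) =
      Ideal.Quotient.mk (Ideal.span <| Set.range (rel F H)) (tr (jac F)) *
      Ideal.Quotient.mk (Ideal.span <| Set.range (rel F H)) (tr G) := by
      rw [← map_mul, ← map_mul, ← hH]
    rw [h2] at hu
    exact unit_left_mk _ _ _ hu
  rw [hdet, map_mul]
  exact h1.mul hu


/-- The image of a dominant morphism of finite type contains a nonempty basic open set. -/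
theorem open_of_inj {A B : Type*} [CommRing A] [IsDomain A] [IsNoetherianRing A] [CommRing B]
    [Algebra A B] [Algebra.FiniteType A B]
    (hinj : Function.Injective (algebraMap A B)) :
    ∃ Δ : A, Δ ≠ 0 ∧ ∀ p : PrimeSpectrum A, Δ ∉ p.asIdeal →
      p ∈ Set.range (PrimeSpectrum.comap (algebraMap A B)) := by
  have hft : (algebraMap A B).FiniteType := RingHom.finiteType_algebraMap.2 inferInstance
  have hfp : (algebraMap A B).FinitePresentation := RingHom.FinitePresentation.of_finiteType.1 hft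
  obtain ⟨T, hT⟩ := PrimeSpectrum.exists_constructibleSetData_iff.2
    (PrimeSpectrum.isConstructible_range_comap hfp)
  have hbot : (⊥ : PrimeSpectrum A) ∈ Set.range (PrimeSpectrum.comap (algebraMap A B)) := by
    obtain ⟨q, hq, hqp⟩ := Ideal.exists_comap_eq_of_mem_minimalPrimes_of_injective hinj
      (⊥ : Ideal A) (by rw [IsDomain.minimalPrimes_eq_singleton_bot]; rfl)
    refine ⟨⟨q, hq⟩, ?_⟩
    ext x
    rw [PrimeSpectrum.comap_asIdeal, hqp]
    rfl
  rw [← hT, PrimeSpectrum.ConstructibleSetData.toSet, Set.mem_iUnion₂] at hbot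
  obtain ⟨C, hC, hCb⟩ := hbot
  rw [PrimeSpectrum.BasicConstructibleSetData.toSet] at hCb
  have h1 : ∀ i, C.g i = 0 := by
    intro i
    have h := hCb.1
    rw [PrimeSpectrum.mem_zeroLocus] at h
    have h2 := h ⟨i, rfl⟩
    simpa using h2
  have h2 : C.f ≠ 0 := by
    intro h
    apply hCb.2
    rw [PrimeSpectrum.mem_zeroLocus, h]
    simp
  refine ⟨C.f, h2, fun p hp => ?_⟩
  rw [← hT, PrimeSpectrum.ConstructibleSetData.toSet, Set.mem_iUnion₂]
  refine ⟨C, hC, ?_⟩
  rw [PrimeSpectrum.BasicConstructibleSetData.toSet]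
  constructor
  · rw [PrimeSpectrum.mem_zeroLocus]
    rintro _ ⟨i, rfl⟩
    rw [h1 i]
    exact Ideal.zero_mem _
  · rw [PrimeSpectrum.mem_zeroLocus]
    intro h
    exact hp (h rfl)

/-- A ring map from the algebra of solutions gives a solution. -/
theorem point_of_hom {R : Type*} [CommRing R] [Algebra ℚ R] (F : I → MvPolynomial (E ⊕ I) ℚ)
    (H : MvPolynomial (E ⊕ I) ℚ) (g : MvPolynomial (I ⊕ Unit) (MvPolynomial E ℚ) →+* R)
    (hg : ∀ v, g (rel F H v) = 0) :
    (∀ i, aeval (Sum.elim (fun e => g (C (X e))) (fun i => g (X (Sum.inl i)))) (F i) = 0) ∧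
      g (X (Sum.inr ())) *
        aeval (Sum.elim (fun e => g (C (X e))) (fun i => g (X (Sum.inl i)))) H = 1 := by
  have h1 : ∀ P, aeval (Sum.elim (fun e => g (C (X e))) (fun i => g (X (Sum.inl i)))) P =
      g (tr P) := by
    intro P
    have : aeval (Sum.elim (fun e => g (C (X e))) (fun i => g (X (Sum.inl i)))) =
        (g.toRatAlgHom : MvPolynomial (I ⊕ Unit) (MvPolynomial E ℚ) →ₐ[ℚ] R).comp
          (tr : MvPolynomial (E ⊕ I) ℚ →ₐ[ℚ] _) := by
      ext s
      rcases s with e | i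
      · simp [tr]
      · simp [tr]
    exact DFunLike.congr_fun this P
  constructor
  · intro i
    rw [h1]
    exact hg (Sum.inl i)
  · rw [h1]
    have h2 := hg (Sum.inr ())
    simp only [rel, Sum.elim_inr, map_sub, map_mul, map_one] at h2
    exact sub_eq_zero.1 h2


theorem inj_of_smooth {A B : Type} [CommRing A] [IsDomain A] [CommRing B] [Algebra A B]
    [Algebra.Smooth A B] (g : B →+* ℚ) : Function.Injective (algebraMap A B) := by
  have hnt : Nontrivial B := g.domain_nontrivial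
  rw [injective_iff_map_eq_zero]
  intro a ha
  by_contra hne
  have hreg : IsSMulRegular A a := fun x y hxy => mul_left_cancel₀ hne hxy
  have hreg2 : IsSMulRegular B (algebraMap A B a) := IsSMulRegular.of_flat hreg
  rw [ha] at hreg2
  have : (1 : B) = 0 := hreg2 (by simp)
  exact one_ne_zero this

/-- Points over general points. -/
theorem lift_of_inj {A B : Type} [CommRing A] [IsDomain A] [IsNoetherianRing A] [CommRing B]
    [Algebra A B] [Algebra.FiniteType A B]
    (hinj : Function.Injective (algebraMap A B)) :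
    ∃ Δ : A, Δ ≠ 0 ∧ ∀ (K : Type) [Field K] [CharZero K] (φ : A →+* K), φ Δ ≠ 0 →
      ∃ (L : Type) (_ : Field L) (_ : CharZero L) (_ : Algebra K L)
        (_ : FiniteDimensional K L) (g : B →+* L), ∀ a, g (algebraMap A B a) =
          algebraMap K L (φ a) := by
  obtain ⟨Δ, hΔ, hp⟩ := open_of_inj (A := A) (B := B) hinj
  refine ⟨Δ, hΔ, ?_⟩
  intro K _ _ φ hφ
  let : Algebra A K := φ.toAlgebra
  have : Nontrivial (K ⊗[A] B) := UF.q3_nontrivial (by
    intro p hpk
    refine hp p ?_
    rw [hpk]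
    exact hφ)
  obtain ⟨m, hm⟩ := Ideal.exists_maximal (K ⊗[A] B)
  let hLf : Field ((K ⊗[A] B) ⧸ m) := Ideal.Quotient.field m
  have hfin : Module.Finite K ((K ⊗[A] B) ⧸ m) :=
    finite_of_finite_type_of_isJacobsonRing K ((K ⊗[A] B) ⧸ m)
  have hchar : CharZero ((K ⊗[A] B) ⧸ m) :=
    charZero_of_injective_algebraMap (algebraMap K ((K ⊗[A] B) ⧸ m)).injective
  let g1 : B →+* ((K ⊗[A] B) ⧸ m) := (Ideal.Quotient.mk m).comp
    ((Algebra.TensorProduct.includeRight : B →ₐ[A] K ⊗[A] B).toRingHom)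
  refine ⟨(K ⊗[A] B) ⧸ m, hLf, hchar, inferInstance, hfin, g1, fun a => ?_⟩
  change Ideal.Quotient.mk m ((1 : K) ⊗ₜ[A] (algebraMap A B a)) =
      Ideal.Quotient.mk m ((algebraMap A K a) ⊗ₜ[A] (1 : B))
  rw [Algebra.algebraMap_eq_smul_one,
      Algebra.algebraMap_eq_smul_one, TensorProduct.tmul_smul, TensorProduct.smul_tmul']

theorem inj_of_point [Finite E] [Fintype I] [DecidableEq I] (F : I → MvPolynomial (E ⊕ I) ℚ)
    (H G : MvPolynomial (E ⊕ I) ℚ) (hH : H = jac F * G) (c0 : E → ℚ) (k0 : I → ℚ)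
    (hF : ∀ i, eval (Sum.elim c0 k0) (F i) = 0) (h0 : eval (Sum.elim c0 k0) H ≠ 0) :
    Function.Injective (algebraMap (MvPolynomial E ℚ) (Sol F H)) := by
  have : Algebra.Smooth (MvPolynomial E ℚ) (Sol F H) := smooth F H G hH
  -- a point
  let g : MvPolynomial (I ⊕ Unit) (MvPolynomial E ℚ) →+* ℚ :=
    eval₂Hom (eval c0) (Sum.elim k0 fun _ => (eval (Sum.elim c0 k0) H)⁻¹)
  have hg : ∀ P, g (tr P) = eval (Sum.elim c0 k0) P := by
    intro P
    have : (g.toRatAlgHom : MvPolynomial (I ⊕ Unit) (MvPolynomial E ℚ) →ₐ[ℚ] ℚ).comp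
          (tr : MvPolynomial (E ⊕ I) ℚ →ₐ[ℚ] _) = aeval (Sum.elim c0 k0) := by
      ext s
      rcases s with e | i
      · simp [tr, g]
      · simp [tr, g]
    exact DFunLike.congr_fun this P
  have hker : ∀ a ∈ Ideal.span (Set.range (rel F H)), g a = 0 := by
    intro a ha
    have h1 : Ideal.span (Set.range (rel F H)) ≤ RingHom.ker g := by
      rw [Ideal.span_le]
      rintro _ ⟨v, rfl⟩
      change g (rel F H v) = 0
      rcases v with i | u
      · change g (tr (F i)) = 0
        rw [hg, hF]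
      · change g (X (Sum.inr ()) * tr H - 1) = 0
        rw [map_sub, map_mul, hg, map_one]
        simp [g, h0]
    exact h1 ha
  exact inj_of_smooth (A := MvPolynomial E ℚ) (B := Sol F H) (Ideal.Quotient.lift _ g hker)

/-- **Etale spread.** -/
theorem et_fin [Finite E] [Fintype I] [DecidableEq I] (F : I → MvPolynomial (E ⊕ I) ℚ)
    (G : MvPolynomial (E ⊕ I) ℚ) (c0 : E → ℚ) (k0 : I → ℚ)
    (hF : ∀ i, eval (Sum.elim c0 k0) (F i) = 0)
    (hJ : eval (Sum.elim c0 k0) (jac F) ≠ 0) (hG : eval (Sum.elim c0 k0) G ≠ 0) :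
    ∃ Δ : MvPolynomial E ℚ, Δ ≠ 0 ∧ ∀ (K : Type) [Field K] [CharZero K] (y : E → K),
      aeval y Δ ≠ 0 → ∃ (L : Type) (_ : Field L) (_ : CharZero L) (_ : Algebra K L)
        (_ : FiniteDimensional K L) (k : I → L),
        (∀ i, aeval (Sum.elim (fun e => algebraMap K L (y e)) k) (F i) = 0) ∧
        aeval (Sum.elim (fun e => algebraMap K L (y e)) k) (jac F) ≠ 0 ∧
        aeval (Sum.elim (fun e => algebraMap K L (y e)) k) G ≠ 0 := by
  obtain ⟨H, hH⟩ : ∃ H, H = jac F * G := ⟨_, rfl⟩
  have h0 : eval (Sum.elim c0 k0) H ≠ 0 := by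
    rw [hH, map_mul]
    exact mul_ne_zero hJ hG
  have hinj := inj_of_point F H G hH c0 k0 hF h0
  have hft : Algebra.FiniteType (MvPolynomial E ℚ) (Sol F H) := inferInstance
  obtain ⟨Δ, hΔ, hp⟩ := lift_of_inj (A := MvPolynomial E ℚ) (B := Sol F H) hinj
  refine ⟨Δ, hΔ, ?_⟩
  intro K _ _ y hy
  obtain ⟨L, i1, i2, i3, i4, g1, hg1⟩ := hp K (aeval y : MvPolynomial E ℚ →ₐ[ℚ] K).toRingHom hy
  let g : MvPolynomial (I ⊕ Unit) (MvPolynomial E ℚ) →+* L := g1.comp (Ideal.Quotient.mk _)
  have hg : ∀ v, g (rel F H v) = 0 := by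
    intro v
    change g1 (Ideal.Quotient.mk _ (rel F H v)) = 0
    have h0 : rel F H v ∈ Ideal.span (Set.range (rel F H)) := Ideal.subset_span ⟨v, rfl⟩
    rw [Ideal.Quotient.eq_zero_iff_mem.2 h0, map_zero]
  obtain ⟨h1, h2⟩ := point_of_hom F H g hg
  have h3 : (fun e => g (C (X e))) = fun e => algebraMap K L (y e) := by
    funext e
    have h4 := hg1 (X e)
    have h5 : (aeval y : MvPolynomial E ℚ →ₐ[ℚ] K).toRingHom (X e) = y e := by
      change aeval y (X e) = y e
      rw [aeval_X]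
    rw [h5] at h4
    exact h4
  rw [h3] at h1 h2
  have h5 := right_ne_zero_of_mul_eq_one h2
  rw [hH, map_mul] at h5
  exact ⟨L, i1, i2, i3, i4, fun i => g (X (Sum.inl i)), h1,
    left_ne_zero_of_mul h5, right_ne_zero_of_mul h5⟩

/-- **Etale spread**, with the Jacobian matrix written out. -/
theorem et {E I : Type} [Finite E] [Fintype I] [DecidableEq I]
    (F : I → MvPolynomial (E ⊕ I) ℚ) (G : MvPolynomial (E ⊕ I) ℚ) (c0 : E → ℚ) (k0 : I → ℚ)
    (hF : ∀ i, eval (Sum.elim c0 k0) (F i) = 0)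
    (hJ : (Matrix.of fun i j => eval (Sum.elim c0 k0) (pderiv (Sum.inr j) (F i))).det ≠ 0)
    (hG : eval (Sum.elim c0 k0) G ≠ 0) :
    ∃ Δ : MvPolynomial E ℚ, Δ ≠ 0 ∧ ∀ (K : Type) [Field K] [CharZero K] (y : E → K),
      aeval y Δ ≠ 0 → ∃ (L : Type) (_ : Field L) (_ : CharZero L) (_ : Algebra K L)
        (_ : FiniteDimensional K L) (k : I → L),
        (∀ i, aeval (Sum.elim (fun e => algebraMap K L (y e)) k) (F i) = 0) ∧
        (Matrix.of fun i j => aeval (Sum.elim (fun e => algebraMap K L (y e)) k)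
          (pderiv (Sum.inr j) (F i))).det ≠ 0 ∧
        aeval (Sum.elim (fun e => algebraMap K L (y e)) k) G ≠ 0 := by
  have h1 : eval (Sum.elim c0 k0) (jac F) ≠ 0 := by
    rw [jac, RingHom.map_det]
    exact hJ
  obtain ⟨Δ, hΔ, h⟩ := et_fin F G c0 k0 hF h1 hG
  refine ⟨Δ, hΔ, fun K _ _ y hy => ?_⟩
  obtain ⟨L, i1, i2, i3, i4, k, h2, h3, h4⟩ := h K y hy
  refine ⟨L, i1, i2, i3, i4, k, h2, ?_, h4⟩
  rw [jac, AlgHom.map_det] at h3
  exact h3

end Pool.Agent.Helper76.XN
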