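import Mathlib
import Pool.Agent.Helper76.XN.ET
import Pool.Agent.Helper28.HN.Cfg
import Pool.Agent.Helper80.HN.Nat

/-!
# Existence of configurations for general coefficients
-/

namespace Pool.Agent.Helper76.XN

open MvPolynomial Pool.Agent.Helper28.HN
open Pool.Agent.Helper80.HN (map_Eqn map_Pp)

/-- The equations as polynomials in the coefficients and the unknowns. -/
noncomputable def FF (m : ℕ) (i : En m) : MvPolynomial (Ix m ⊕ Un m) ℚ :=
  Eqn (fun e => X (Sum.inl e)) (fun j => X (Sum.inr j)) i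

/-- The product as a polynomial in the coefficients and the unknowns. -/
noncomputable def GG (m : ℕ) : MvPolynomial (Ix m ⊕ Un m) ℚ :=
  Pp (fun e => X (Sum.inl e)) (fun j => X (Sum.inr j))

theorem eval_FF {m : ℕ} (c : Ix m → ℚ) (k : Un m → ℚ) (i : En m) :
    eval (Sum.elim c k) (FF m i) = Eqn c k i := by
  have h := map_Eqn (eval (Sum.elim c k) : MvPolynomial (Ix m ⊕ Un m) ℚ →+* ℚ)
    (fun e => X (Sum.inl e)) (fun j => X (Sum.inr j)) i
  change eval (Sum.elim c k) (FF m i) = _ at h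
  rw [h]
  congr 1
  · funext e
    simp
  · funext j
    simp

theorem eval_GG {m : ℕ} (c : Ix m → ℚ) (k : Un m → ℚ) :
    eval (Sum.elim c k) (GG m) = Pp c k := by
  have h := map_Pp (eval (Sum.elim c k) : MvPolynomial (Ix m ⊕ Un m) ℚ →+* ℚ)
    (fun e => X (Sum.inl e)) (fun j => X (Sum.inr j))
  change eval (Sum.elim c k) (GG m) = _ at h
  rw [h]
  congr 1
  · funext e
    simp
  · funext j
    simp

section

variable {m : ℕ} {L : Type*} [Field L] [CharZero L]

theorem aeval_FF (c : Ix m → L) (k : Un m → L) (i : En m) :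
    aeval (Sum.elim c k) (FF m i) = Eqn c k i := by
  have h := map_Eqn (aeval (Sum.elim c k) : MvPolynomial (Ix m ⊕ Un m) ℚ →ₐ[ℚ] L).toRingHom
    (fun e => X (Sum.inl e)) (fun j => X (Sum.inr j)) i
  change aeval (Sum.elim c k) (FF m i) = _ at h
  rw [h]
  congr 1
  · funext e
    simp
  · funext j
    simp

theorem aeval_GG (c : Ix m → L) (k : Un m → L) :
    aeval (Sum.elim c k) (GG m) = Pp c k := by
  have h := map_Pp (aeval (Sum.elim c k) : MvPolynomial (Ix m ⊕ Un m) ℚ →ₐ[ℚ] L).toRingHom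
    (fun e => X (Sum.inl e)) (fun j => X (Sum.inr j))
  change aeval (Sum.elim c k) (GG m) = _ at h
  rw [h]
  congr 1
  · funext e
    simp
  · funext j
    simp

/-- Specialisation of the coefficients. -/
noncomputable def sp (c : Ix m → L) : MvPolynomial (Ix m ⊕ Un m) ℚ →ₐ[ℚ] MvPolynomial (Un m) L :=
  aeval (Sum.elim (fun e => C (c e)) X)

theorem sp_pderiv (c : Ix m → L) (j : Un m) (P : MvPolynomial (Ix m ⊕ Un m) ℚ) :
    pderiv j (sp c P) = sp c (pderiv (Sum.inr j) P) := by
  classical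
  induction P using MvPolynomial.induction_on with
  | C a =>
    have : sp c (C a : MvPolynomial (Ix m ⊕ Un m) ℚ) = C (algebraMap ℚ L a) := by
      rw [sp, aeval_C]
      rfl
    rw [this]
    simp
  | add p q hp hq => simp [hp, hq]
  | mul_X p s hp =>
    rw [map_mul, Derivation.leibniz, Derivation.leibniz, map_add, hp]
    simp only [smul_eq_mul, map_mul]
    congr 2
    rcases s with e | i
    · simp [sp, pderiv_X]
    · simp [sp, pderiv_X, Pi.single_apply]

theorem eval_sp (c : Ix m → L) (k : Un m → L) (P : MvPolynomial (Ix m ⊕ Un m) ℚ) :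
    eval k (sp c P) = aeval (Sum.elim c k) P := by
  have : ((aeval k : MvPolynomial (Un m) L →ₐ[L] L).restrictScalars ℚ).comp (sp c) =
      aeval (Sum.elim c k) := by
    ext s
    rcases s with e | i
    · simp [sp]
    · simp [sp]
  have h := DFunLike.congr_fun this P
  rw [← h]
  simp [aeval_eq_eval]

theorem sp_FF (c : Ix m → L) (i : En m) : sp c (FF m i) = Gs c i := by
  have h := map_Eqn (sp c : MvPolynomial (Ix m ⊕ Un m) ℚ →ₐ[ℚ] MvPolynomial (Un m) L).toRingHom
    (fun e => X (Sum.inl e)) (fun j => X (Sum.inr j)) i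
  change sp c (FF m i) = _ at h
  rw [h, Gs]
  congr 1
  · funext e
    simp [sp]
  · funext j
    simp [sp]

theorem jac_eq (c : Ix m → L) (k : Un m → L) (i : En m) (j : Un m) :
    aeval (Sum.elim c k) (pderiv (Sum.inr j) (FF m i)) = eval k (pderiv j (Gs c i)) := by
  rw [← sp_FF, sp_pderiv, eval_sp]

end

/-- Existence of configurations, from an example. -/
theorem exists_cfg_of {m : ℕ} (hm : 4 ≤ m) (c0 : Ix m → ℚ) (k0 : Un m → ℚ) (e : Un m ≃ En m)
    (h1 : ∀ i, Eqn c0 k0 i = 0) (h2 : Pp c0 k0 ≠ 0)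
    (h3 : (Matrix.of fun i j => eval (Sum.elim c0 k0) (pderiv (Sum.inr j)
      (Eqn (fun e => X (Sum.inl e)) (fun j => X (Sum.inr j)) (e i) :
        MvPolynomial (Ix m ⊕ Un m) ℚ))).det ≠ 0) :
    ∃ Δ : MvPolynomial (Ix m) ℚ, Δ ≠ 0 ∧
    ∀ (K : Type) [Field K] [NumberField K] (c : Ix m → K), aeval c Δ ≠ 0 →
      ∃ (L : Type) (_ : Field L) (_ : NumberField L) (_ : Algebra K L) (k : Un m → L),
        (∀ i, Eqn (fun e => algebraMap K L (c e)) k i = 0) ∧
        Pp (fun e => algebraMap K L (c e)) k ≠ 0 ∧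
        (Matrix.of fun i j => eval k (pderiv j (Gs (fun e => algebraMap K L (c e))
          (ee hm i)))).det ≠ 0 := by
  obtain ⟨Δ, hΔ, h⟩ := et (E := Ix m) (I := Un m) (fun i => FF m (e i)) (GG m) c0 k0
    (fun i => by rw [eval_FF]; exact h1 _) h3 (by rw [eval_GG]; exact h2)
  refine ⟨Δ, hΔ, fun K _ _ c hc => ?_⟩
  obtain ⟨L, _, _, _, _, k, g1, g2, g3⟩ := h K c hc
  have hL : NumberField L := NumberField.of_module_finite K L
  refine ⟨L, inferInstance, hL, inferInstance, k, ?_, ?_, ?_⟩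
  · intro i
    have h5 := g1 (e.symm i)
    rwa [Equiv.apply_symm_apply, aeval_FF] at h5
  · rwa [aeval_GG] at g3
  · have h6 : (Matrix.of fun i j => aeval (Sum.elim (fun e => algebraMap K L (c e)) k)
        (pderiv (Sum.inr j) (FF m (e i)))) = (Matrix.of fun i j => eval k (pderiv j
          (Gs (fun e => algebraMap K L (c e)) (ee hm i)))).submatrix (e.trans (ee hm).symm) id := by
      ext i j
      simp [jac_eq]
    rw [h6, Matrix.det_permute] at g2
    exact right_ne_zero_of_mul g2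

end Pool.Agent.Helper76.XN
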