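import Mathlib
import Pool.Agent.Helper76.XN.Exist
import Pool.Agent.Helper60.HN.Ex

/-!
# Existence of configurations for general coefficients
-/

namespace Pool.Agent.Helper76.XN

open MvPolynomial Pool.Agent.Helper28.HN

theorem exists_cfg {m : ℕ} (hm : 4 ≤ m) : ∃ Δ : MvPolynomial (Ix m) ℚ, Δ ≠ 0 ∧
    ∀ (K : Type) [Field K] [NumberField K] (c : Ix m → K), aeval c Δ ≠ 0 →
      ∃ (L : Type) (_ : Field L) (_ : NumberField L) (_ : Algebra K L) (k : Un m → L),
        (∀ i, Eqn (fun e => algebraMap K L (c e)) k i = 0) ∧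
        Pp (fun e => algebraMap K L (c e)) k ≠ 0 ∧
        (Matrix.of fun i j => eval k (pderiv j (Gs (fun e => algebraMap K L (c e))
          (ee hm i)))).det ≠ 0 :=
  exists_cfg_of hm (Helper60.HN.c0 m) (Helper60.HN.k0 m) (ee hm)
    (fun i => Helper60.HN.ex_eqn hm i) (Helper60.HN.ex_pp hm) (Helper60.HN.ex_jac hm (ee hm))

end Pool.Agent.Helper76.XN
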