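import Mathlib
import Pool.Agent.Helper28.HN.Defs

/-!
# The example: the bilinear part
-/

namespace Pool.Agent.Helper76.XN

open Pool.Agent.Helper28.HN

/-- The bilinear forms of the example. -/
def IsEx {m : ℕ} {S : Type*} [CommRing S] (c : Ix m → S) : Prop :=
  ∀ (r : Fin m) (x y : I m → S), lf c r x y =
    x 0 * y r.succ.succ + x r.castSucc.succ * y 0 - x r.succ.succ * y 1

section

variable {m : ℕ} {S : Type*} [CommRing S] {c : Ix m → S} (h : IsEx c)

include h

theorem ex_Mx (x : I m → S) (hx : x 0 = 1) : Mx c x = 1 := by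
  ext r b
  rw [Mx, h, Matrix.one_apply, hx]
  have h1 : (Pi.single b.succ.succ 1 : I m → S) 0 = 0 :=
    Pi.single_eq_of_ne (Fin.succ_ne_zero _).symm _
  have h2 : (Pi.single b.succ.succ 1 : I m → S) 1 = 0 := by
    refine Pi.single_eq_of_ne (fun hh => ?_) _
    have := congrArg Fin.val hh
    simp at this
  rw [h1, h2]
  by_cases hb : r = b
  · subst hb
    simp
  · rw [if_neg hb, Pi.single_eq_of_ne]
    · simp
    · intro hh
      exact hb (Fin.succ_injective _ (Fin.succ_injective _ hh))

theorem ex_detMx (x : I m → S) (hx : x 0 = 1) : (Mx c x).det = 1 := by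
  rw [ex_Mx h x hx, Matrix.det_one]

theorem ex_Y0 (x : I m → S) (hx : x 0 = 1) :
    Y0 c x = Fin.cons 1 (Fin.cons 0 fun r => - x r.castSucc.succ) := by
  rw [Y0, ex_Mx h x hx, Matrix.det_one, Matrix.adjugate_one, Matrix.one_mulVec]
  congr 2
  funext r
  rw [Pi.neg_apply, h]
  simp

theorem ex_Y1 (x : I m → S) (hx : x 0 = 1) :
    Y1 c x = Fin.cons 0 (Fin.cons 1 fun r => x r.succ.succ) := by
  rw [Y1, ex_Mx h x hx, Matrix.det_one, Matrix.adjugate_one, Matrix.one_mulVec]
  congr 2
  funext r
  rw [Pi.neg_apply, h]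
  have h2 : (Pi.single 1 1 : I m → S) r.succ.succ = 0 := by
    refine Pi.single_eq_of_ne (fun hh => ?_) _
    have := congrArg Fin.val hh
    simp at this
  rw [h2]
  simp

theorem ex_yh (x : I m → S) (hx : x 0 = 1) (z : S) :
    yh c x z = Fin.cons 1 (Fin.cons z fun r => z * x r.succ.succ - x r.castSucc.succ) := by
  funext i
  rw [yh, ex_Y0 h x hx, ex_Y1 h x hx]
  refine Fin.cases ?_ (fun i => Fin.cases ?_ (fun r => ?_) i) i
  · simp
  · simp
  · simp only [Fin.cons_succ]
    ring

theorem ex_Nx (y : I m → S) (r i : Fin m) : Nx c y r i =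
    (if i = r then y 0 else 0) - if i.val = r.val + 1 then y 1 else 0 := by
  rw [Nx, h]
  have h0 : (Pi.single i.castSucc.succ 1 : I m → S) 0 = 0 :=
    Pi.single_eq_of_ne (Fin.succ_ne_zero _).symm _
  rw [h0, zero_mul, zero_add, Pi.single_apply, Pi.single_apply]
  have e1 : (r.castSucc.succ = i.castSucc.succ) ↔ i = r := by
    constructor
    · intro hh
      exact (Fin.castSucc_injective _ (Fin.succ_injective _ hh)).symm
    · rintro rfl
      rfl
  have e2 : (r.succ.succ = i.castSucc.succ) ↔ i.val = r.val + 1 := by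
    constructor
    · intro hh
      have := congrArg Fin.val hh
      simp at this
      omega
    · intro hh
      apply Fin.ext
      simp
      omega
  rw [if_congr e1 rfl rfl, if_congr e2 rfl rfl, ite_mul, ite_mul]
  simp

theorem ex_detNx (y : I m → S) : (Nx c y).det = y 0 ^ m := by
  have htri : (Nx c y).BlockTriangular id := by
    intro r i hi
    rw [ex_Nx h]
    have h1 : ¬ (i = r) := ne_of_lt hi
    have h2 : ¬ (i.val = r.val + 1) := by
      have : i.val < r.val := hi
      omega
    rw [if_neg h1, if_neg h2, sub_zero]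
  rw [Matrix.det_of_isUpperTriangular htri]
  have : ∀ i, Nx c y i i = y 0 := by
    intro i
    rw [ex_Nx h]
    simp
  simp [this]

/-- At `y 0 = 1`. -/
theorem ex_vh (y : I m → S) (hy : y 0 = 1) (i : Fin (m + 1)) : vh c y i = y 1 ^ (m - i.val) := by
  have hdet : (Nx c y).det = 1 := by rw [ex_detNx h, hy, one_pow]
  have hb : (fun r : Fin m => lf c r (Pi.single (Fin.last (m + 1)) 1) y) =
      - (Nx c y).mulVec fun i => y 1 ^ (m - i.val) := by
    funext r
    rw [h, Pi.neg_apply, Matrix.mulVec, dotProduct]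
    have h0 : (Pi.single (Fin.last (m + 1)) 1 : I m → S) 0 = 0 :=
      Pi.single_eq_of_ne (by simp [Fin.ext_iff]) _
    have h1 : (Pi.single (Fin.last (m + 1)) 1 : I m → S) r.castSucc.succ = 0 := by
      refine Pi.single_eq_of_ne (fun hh => ?_) _
      have := congrArg Fin.val hh
      simp at this
      omega
    rw [h0, h1, zero_mul, zero_mul, zero_add, zero_sub, neg_inj]
    simp only [ex_Nx h, hy, sub_mul, ite_mul, one_mul, zero_mul, Finset.sum_sub_distrib]
    rw [Finset.sum_ite_eq' Finset.univ r]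
    simp only [Finset.mem_univ, if_true]
    rw [Pi.single_apply]
    by_cases hr : r.val + 1 = m
    · have e1 : r.succ.succ = Fin.last (m + 1) := by
        apply Fin.ext
        simp
        omega
      rw [if_pos e1, Finset.sum_eq_zero, sub_zero, one_mul]
      · have : m - r.val = 1 := by omega
        rw [this, pow_one]
      · intro i _
        rw [if_neg]
        have := i.isLt
        omega
    · have e1 : ¬ (r.succ.succ = Fin.last (m + 1)) := by
        intro hh
        have := congrArg Fin.val hh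
        simp at this
        omega
      rw [if_neg e1, zero_mul]
      have hlt : r.val + 1 < m := by
        have := r.isLt
        omega
      rw [Finset.sum_eq_single (⟨r.val + 1, hlt⟩ : Fin m)]
      · simp only [if_true]
        rw [← pow_succ']
        have : m - (r.val + 1) + 1 = m - r.val := by omega
        rw [this, sub_self]
      · intro b _ hb
        rw [if_neg]
        intro hh
        exact hb (Fin.ext hh)
      · simp
  rw [vh, hb, Matrix.mulVec_neg, neg_neg, Matrix.mulVec_mulVec, Matrix.adjugate_mul, hdet,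
    one_smul, Matrix.one_mulVec]
  refine Fin.lastCases ?_ (fun i => ?_) i
  · simp
  · simp

/-- At `u = 0`. -/
theorem ex_yh0 (z : S) : yh c (aff 0) z = Fin.cons 1 (Fin.cons z 0) := by
  rw [ex_yh h (aff 0) (by simp [aff])]
  congr 2
  funext r
  have h1 : (aff (0 : Fin (m + 1) → S)) r.succ.succ = 0 := by
    rw [aff, Fin.cons_succ, Pi.zero_apply]
  have h2 : (aff (0 : Fin (m + 1) → S)) r.castSucc.succ = 0 := by
    rw [aff, Fin.cons_succ, Pi.zero_apply]
  rw [h1, h2]
  simp

theorem ex_vh0 (z : S) (i : Fin (m + 1)) : vh c (yh c (aff 0) z) i = z ^ (m - i.val) := by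
  rw [ex_vh h _ (by rw [ex_yh0 h, Fin.cons_zero]), ex_yh0 h]
  simp

theorem ex_detNx0 (z : S) : (Nx c (yh c (aff 0) z)).det = 1 := by
  rw [ex_detNx h, ex_yh0 h, Fin.cons_zero, one_pow]

/-- The directions form a Vandermonde matrix. -/
theorem ex_Vm (k : Un m → S) (hk : ∀ i, k (.inl i) = 0) :
    Vm c k = (Matrix.vandermonde fun a : Fin (m + 1) => k (.inr a.succ)).submatrix id Fin.rev := by
  have h0 : (aff fun i => k (.inl i)) = (aff 0 : I m → S) := by
    congr 1
    funext i
    rw [hk]
    rfl
  ext a i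
  rw [Vm, h0, ex_vh0 h, Matrix.submatrix_apply, Matrix.vandermonde_apply, Fin.val_rev]
  congr 1
  omega

end

theorem ex_detVm_ne {m : ℕ} {c : Ix m → ℚ} (h : IsEx c) (k : Un m → ℚ) (hk : ∀ i, k (.inl i) = 0)
    (hz : Function.Injective fun a => k (.inr a)) : (Vm c k).det ≠ 0 := by
  have h1 : (Vm c k).det = Equiv.Perm.sign (Fin.revPerm (n := m + 1)) *
      (Matrix.vandermonde fun a : Fin (m + 1) => k (.inr a.succ)).det := by
    rw [ex_Vm h k hk]
    exact Matrix.det_permute' Fin.revPerm _
  rw [h1]
  refine mul_ne_zero ?_ ?_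
  · rcases Int.units_eq_one_or (Equiv.Perm.sign (Fin.revPerm (n := m + 1))) with h2 | h2 <;>
      simp [h2]
  · rw [Matrix.det_vandermonde_ne_zero_iff]
    intro a b hab
    exact Fin.succ_injective _ (hz hab)

end Pool.Agent.Helper76.XN
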